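import Pool.Agent.Y472.H.Defs
import Pool.Agent.Y421.CG.Mz1

/-!
# CB3-H-MAINA, part 1: auxiliary results
-/

set_option autoImplicit false

namespace Pool.Agent.Y290.CH

open Finset Filter Topology Metric
open Pool.Agent.W711.HT Pool.Agent.Y472
open Pool.Agent.Y833.CB Pool.Agent.Y421.CG
open Pool.Agent.Y481 (cw)
open scoped Real

lemma Rc_open (R : ℝ) : IsOpen (Rc R R) := by
  have h1 : Rc R R = {z : ℂ | |z.re| < R} ∩ {z : ℂ | |z.im| < R} := rfl
  rw [h1]
  exact (isOpen_lt (Complex.continuous_re.abs) continuous_const).inter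
    (isOpen_lt (Complex.continuous_im.abs) continuous_const)

lemma Rc_ball {R r : ℝ} (hrR : r < R) {w : ℂ} (hw : ‖w‖ ≤ r) : w ∈ Rc R R :=
  ⟨((Complex.abs_re_le_norm w).trans hw).trans_lt hrR,
    ((Complex.abs_im_le_norm w).trans hw).trans_lt hrR⟩

/-- critical point near the origin, with absolute constants -/
lemma crit_pt {G : ℂ → ℂ} {R c B : ℝ} (m : ℤ) (hR : 0 < R) (hc : 0 < c)
    (hkR : 3 / c < R) (hG : DifferentiableOn ℂ G (Rc R R))
    (hb : ∀ χ ∈ Rc R R, G (-χ) = G χ ∧ (deriv (deriv G) χ).re ≤ -c ∧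
      ‖deriv (deriv G) χ‖ ≤ B) :
    ∃ χ : ℂ, ‖χ‖ ≤ 3 / c ∧ Complex.I * m * χ / π + Complex.I + deriv G χ = 0 ∧ 0 < χ.im ∧
      χ.im ≤ B * ‖χ‖ ^ 2 ∧ |(m : ℝ)| * ‖χ‖ ^ 2 ≤ π * (‖χ‖ + B * ‖χ‖ ^ 2) := by
  have hopen := Rc_open R
  have hdd : DifferentiableOn ℂ (deriv G) (Rc R R) := hG.deriv hopen
  have h0R : (0 : ℂ) ∈ Rc R R := Rc_ball hR (by simp)
  have hd0 : deriv G 0 = 0 := by
    have h1 : deriv (fun χ => G (-χ)) 0 = deriv G 0 := by
      apply Filter.EventuallyEq.deriv_eq
      filter_upwards [hopen.mem_nhds h0R] with χ hχ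
      exact (hb χ hχ).1
    rw [deriv_comp_neg, neg_zero] at h1
    have h2 : deriv G 0 + deriv G 0 = 0 := by
      nth_rewrite 1 [← h1]
      ring
    have h3 : (2 : ℂ) * deriv G 0 = 0 := by rw [two_mul]; exact h2
    simpa using h3
  have hgd : ∀ w ∈ Rc R R, HasDerivAt (fun w => Complex.I * m * w / π + Complex.I + deriv G w)
      (Complex.I * m / π + deriv (deriv G) w) w := by
    intro w hw
    have h1 : HasDerivAt (fun w : ℂ => Complex.I * m * w / π + Complex.I)
        (Complex.I * m / π) w := by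
      have := (((hasDerivAt_id w).const_mul (Complex.I * m)).div_const (π : ℂ)).add_const
        Complex.I
      simpa using this
    exact h1.add ((hdd w hw).differentiableAt (hopen.mem_nhds hw)).hasDerivAt
  have hm0 : (Complex.I * m / π).re = 0 := by
    have : (Complex.I * m / π : ℂ) = (((m : ℝ) / π : ℝ) : ℂ) * Complex.I := by
      push_cast
      ring
    rw [this]
    simp
  have hr0 : 0 < 3 / c := by positivity
  obtain ⟨χ, hχn, hχc⟩ := zero_near
    (g := fun w => Complex.I * m * w / π + Complex.I + deriv G w) (R := R) (r := 3 / c) (c := c)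
    hr0 hkR hc (fun w hw => (hgd w hw).differentiableAt.differentiableWithinAt)
    (fun w hw => by
      rw [(hgd w hw).deriv, Complex.add_re, hm0, zero_add]
      exact (hb w hw).2.1)
    (by
      rw [hd0]
      simp only [mul_zero, zero_div, zero_add, add_zero, Complex.norm_I]
      have : c * (3 / c) / 2 = 3 / 2 := by field_simp
      rw [this]; norm_num)
  have hχR : χ ∈ Rc R R := Rc_ball hkR hχn
  have hne : χ ≠ 0 := by
    rintro rfl
    rw [hd0] at hχc
    simp at hχc
  have hnpos : 0 < ‖χ‖ := norm_pos_iff.2 hne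
  have hmem : ∀ t ∈ Set.Icc (0:ℝ) 1, ((t : ℂ) * χ) ∈ Rc R R := by
    intro t ht
    apply Rc_ball hkR
    rw [norm_mul, Complex.norm_real, Real.norm_eq_abs, abs_of_nonneg ht.1]
    calc t * ‖χ‖ ≤ 1 * ‖χ‖ := by gcongr; exact ht.2
      _ ≤ 3 / c := by rw [one_mul]; exact hχn
  -- bound of `‖G'(χ)‖`
  have hconv : Convex ℝ (Rc R R) := by
    have h1 : Rc R R = {z : ℂ | |z.re| < R} ∩ {z : ℂ | |z.im| < R} := rfl
    intro x hx y hy a b ha hb hab
    constructor
    · have e : (a • x + b • y).re = a * x.re + b * y.re := by simp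
      rw [e]
      calc |a * x.re + b * y.re| ≤ a * |x.re| + b * |y.re| := by
            refine (abs_add_le _ _).trans ?_
            rw [abs_mul, abs_mul, abs_of_nonneg ha, abs_of_nonneg hb]
        _ < R := by
            rcases ha.eq_or_lt with h | h
            · rw [← h] at hab ⊢
              have : b = 1 := by linarith
              rw [this]; simpa using hy.1
            · have h2 : a * |x.re| < a * R := mul_lt_mul_of_pos_left hx.1 h
              have h3 : b * |y.re| ≤ b * R := mul_le_mul_of_nonneg_left hy.1.le hb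
              calc a * |x.re| + b * |y.re| < a * R + b * R := by linarith
                _ = R := by rw [← add_mul, hab, one_mul]
    · have e : (a • x + b • y).im = a * x.im + b * y.im := by simp
      rw [e]
      calc |a * x.im + b * y.im| ≤ a * |x.im| + b * |y.im| := by
            refine (abs_add_le _ _).trans ?_
            rw [abs_mul, abs_mul, abs_of_nonneg ha, abs_of_nonneg hb]
        _ < R := by
            rcases ha.eq_or_lt with h | h
            · rw [← h] at hab ⊢
              have : b = 1 := by linarith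
              rw [this]; simpa using hy.2
            · have h2 : a * |x.im| < a * R := mul_lt_mul_of_pos_left hx.2 h
              have h3 : b * |y.im| ≤ b * R := mul_le_mul_of_nonneg_left hy.2.le hb
              calc a * |x.im| + b * |y.im| < a * R + b * R := by linarith
                _ = R := by rw [← add_mul, hab, one_mul]
  have hGn : ‖deriv G χ‖ ≤ B * ‖χ‖ := by
    have := hconv.norm_image_sub_le_of_norm_deriv_le (f := deriv G) (C := B) (𝕜 := ℂ)
      (fun x hx => (hdd x hx).differentiableAt (hopen.mem_nhds hx))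
      (fun x hx => (hb x hx).2.2) h0R hχR
    rwa [hd0, sub_zero, sub_zero] at this
  -- the real part
  have hre : ((starRingEnd ℂ) χ * deriv G χ).re ≤ -(c * ‖χ‖ ^ 2) := by
    set ψ : ℝ → ℝ := fun t => ((starRingEnd ℂ) χ * deriv G (t * χ)).re + c * ‖χ‖ ^ 2 * t with hψ
    have hder : ∀ t ∈ Set.Icc (0:ℝ) 1, HasDerivAt ψ
        (((starRingEnd ℂ) χ * (deriv (deriv G) (t * χ) * χ)).re + c * ‖χ‖ ^ 2) t := by
      intro t ht
      have h1 : HasDerivAt (fun w : ℂ => (starRingEnd ℂ) χ * deriv G (w * χ))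
          ((starRingEnd ℂ) χ * (deriv (deriv G) (t * χ) * χ)) (t : ℂ) := by
        have h2 : HasDerivAt (fun w : ℂ => w * χ) χ (t : ℂ) := by
          simpa using (hasDerivAt_id (t : ℂ)).mul_const χ
        have h3 : HasDerivAt (deriv G) (deriv (deriv G) (t * χ)) ((t : ℂ) * χ) :=
          ((hdd _ (hmem t ht)).differentiableAt (hopen.mem_nhds (hmem t ht))).hasDerivAt
        exact (HasDerivAt.comp (t : ℂ) h3 h2).const_mul _
      have h4 := h1.real_of_complex
      have h5 : HasDerivAt (fun t : ℝ => c * ‖χ‖ ^ 2 * t) (c * ‖χ‖ ^ 2) t := by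
        simpa using (hasDerivAt_id t).const_mul (c * ‖χ‖ ^ 2)
      exact h4.add h5
    have hle : ∀ t ∈ Set.Icc (0:ℝ) 1,
        ((starRingEnd ℂ) χ * (deriv (deriv G) (t * χ) * χ)).re + c * ‖χ‖ ^ 2 ≤ 0 := by
      intro t ht
      have h1 : (starRingEnd ℂ) χ * (deriv (deriv G) (t * χ) * χ) =
          ((‖χ‖ ^ 2 : ℝ) : ℂ) * deriv (deriv G) (t * χ) := by
        rw [← Complex.normSq_eq_norm_sq, Complex.normSq_eq_conj_mul_self]
        ring
      rw [h1, Complex.re_ofReal_mul]
      have := (hb _ (hmem t ht)).2.1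
      have h2 : 0 ≤ ‖χ‖ ^ 2 := by positivity
      nlinarith
    have hanti : AntitoneOn ψ (Set.Icc 0 1) := by
      apply antitoneOn_of_deriv_nonpos (convex_Icc 0 1)
      · exact fun t ht => (hder t ht).continuousAt.continuousWithinAt
      · intro t ht
        rw [interior_Icc] at ht
        exact (hder t ⟨ht.1.le, ht.2.le⟩).differentiableAt.differentiableWithinAt
      · intro t ht
        rw [interior_Icc] at ht
        rw [(hder t ⟨ht.1.le, ht.2.le⟩).deriv]
        exact hle t ⟨ht.1.le, ht.2.le⟩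
    have h01 := hanti (Set.left_mem_Icc.2 zero_le_one) (Set.right_mem_Icc.2 zero_le_one) zero_le_one
    simp only [hψ, Complex.ofReal_one, Complex.ofReal_zero, one_mul, zero_mul, hd0, mul_zero,
      Complex.zero_re, mul_one, add_zero] at h01
    linarith
  -- the equation times the conjugate
  have heq : Complex.I * (((m : ℝ) * ‖χ‖ ^ 2 / π : ℝ) : ℂ) + Complex.I * (starRingEnd ℂ) χ +
      (starRingEnd ℂ) χ * deriv G χ = 0 := by
    have h1 : ((‖χ‖ ^ 2 : ℝ) : ℂ) = (starRingEnd ℂ) χ * χ := by
      rw [← Complex.normSq_eq_norm_sq, Complex.normSq_eq_conj_mul_self]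
    have h2 : (starRingEnd ℂ) χ * (Complex.I * m * χ / π + Complex.I + deriv G χ) = 0 := by
      rw [hχc, mul_zero]
    have h3 : (((m : ℝ) * ‖χ‖ ^ 2 / π : ℝ) : ℂ) = (m : ℂ) * ((‖χ‖ ^ 2 : ℝ) : ℂ) / π := by
      push_cast; ring
    rw [h3, h1]
    rw [← h2]
    ring
  have hre2 := congrArg Complex.re heq
  have him2 := congrArg Complex.im heq
  rw [Complex.add_re, Complex.add_re, Complex.I_mul_re, Complex.I_mul_re, Complex.ofReal_im,
    Complex.conj_im, Complex.zero_re] at hre2
  rw [Complex.add_im, Complex.add_im, Complex.I_mul_im, Complex.I_mul_im, Complex.ofReal_re,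
    Complex.conj_re, Complex.zero_im] at him2
  have hnb : ‖(starRingEnd ℂ) χ * deriv G χ‖ ≤ B * ‖χ‖ ^ 2 := by
    rw [norm_mul, Complex.norm_conj]
    calc ‖χ‖ * ‖deriv G χ‖ ≤ ‖χ‖ * (B * ‖χ‖) := by gcongr
      _ = _ := by ring
  have hc2 : 0 < c * ‖χ‖ ^ 2 := by positivity
  refine ⟨χ, hχn, hχc, by linarith, ?_, ?_⟩
  · have h1 := (abs_le.1 (Complex.abs_re_le_norm ((starRingEnd ℂ) χ * deriv G χ))).1
    linarith
  · have hπ := Real.pi_pos
    have h1 := Complex.abs_im_le_norm ((starRingEnd ℂ) χ * deriv G χ)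
    have h2 : (m : ℝ) * ‖χ‖ ^ 2 / π = -χ.re - ((starRingEnd ℂ) χ * deriv G χ).im := by linarith
    have h3 : |(m : ℝ) * ‖χ‖ ^ 2 / π| ≤ ‖χ‖ + B * ‖χ‖ ^ 2 := by
      rw [h2]
      have h4 := Complex.abs_re_le_norm χ
      calc |-χ.re - ((starRingEnd ℂ) χ * deriv G χ).im| ≤ |-χ.re| +
          |((starRingEnd ℂ) χ * deriv G χ).im| := abs_sub _ _
        _ ≤ _ := by rw [abs_neg]; linarith
    rw [abs_div, abs_mul, abs_of_pos hπ, abs_of_nonneg (by positivity : (0:ℝ) ≤ ‖χ‖ ^ 2),
      div_le_iff₀ hπ] at h3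
    linarith

/-- strict concavity -/
lemma conc_le {φ φ' φ'' : ℝ → ℝ} {a b x₀ c : ℝ} (h1 : ∀ x ∈ Set.Ioo a b, HasDerivAt φ (φ' x) x)
    (h2 : ∀ x ∈ Set.Ioo a b, HasDerivAt φ' (φ'' x) x) (h3 : ∀ x ∈ Set.Ioo a b, φ'' x ≤ -c)
    (hx₀ : x₀ ∈ Set.Ioo a b) (h0 : φ' x₀ = 0) :
    ∀ x ∈ Set.Ioo a b, φ x ≤ φ x₀ - c / 2 * (x - x₀) ^ 2 := by
  set u : ℝ → ℝ := fun x => φ' x + c * (x - x₀) with hu
  have hud : ∀ x ∈ Set.Ioo a b, HasDerivAt u (φ'' x + c) x := by
    intro x hx
    have h4 : HasDerivAt (fun x : ℝ => c * (x - x₀)) c x := by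
      simpa using ((hasDerivAt_id x).sub_const x₀).const_mul c
    exact (h2 x hx).add h4
  have hua : AntitoneOn u (Set.Ioo a b) := by
    apply antitoneOn_of_deriv_nonpos (convex_Ioo a b)
    · exact fun t ht => (hud t ht).continuousAt.continuousWithinAt
    · intro t ht
      rw [interior_Ioo] at ht
      exact (hud t ht).differentiableAt.differentiableWithinAt
    · intro t ht
      rw [interior_Ioo] at ht
      rw [(hud t ht).deriv]
      linarith [h3 t ht]
  have hu0 : u x₀ = 0 := by simp [hu, h0]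
  set v : ℝ → ℝ := fun x => φ x + c / 2 * (x - x₀) ^ 2 with hv
  have hvd : ∀ x ∈ Set.Ioo a b, HasDerivAt v (u x) x := by
    intro x hx
    have h4 : HasDerivAt (fun x : ℝ => c / 2 * (x - x₀) ^ 2) (c * (x - x₀)) x := by
      have := (((hasDerivAt_id x).sub_const x₀).pow 2).const_mul (c / 2)
      refine this.congr_deriv ?_
      simp only [Nat.cast_ofNat, id, Nat.add_one_sub_one, pow_one, mul_one]
      ring
    exact (h1 x hx).add h4
  intro x hx
  have hv0 : v x₀ = φ x₀ := by simp [hv]
  have key : v x ≤ v x₀ := by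
    rcases le_total x₀ x with hle | hle
    · have hsub : Set.Icc x₀ x ⊆ Set.Ioo a b := fun y hy =>
        ⟨lt_of_lt_of_le hx₀.1 hy.1, lt_of_le_of_lt hy.2 hx.2⟩
      have : AntitoneOn v (Set.Icc x₀ x) := by
        apply antitoneOn_of_deriv_nonpos (convex_Icc x₀ x)
        · exact fun t ht => (hvd t (hsub ht)).continuousAt.continuousWithinAt
        · intro t ht
          rw [interior_Icc] at ht
          exact (hvd t (hsub ⟨ht.1.le, ht.2.le⟩)).differentiableAt.differentiableWithinAt
        · intro t ht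
          rw [interior_Icc] at ht
          rw [(hvd t (hsub ⟨ht.1.le, ht.2.le⟩)).deriv, ← hu0]
          exact hua hx₀ (hsub ⟨ht.1.le, ht.2.le⟩) ht.1.le
      exact this (Set.left_mem_Icc.2 hle) (Set.right_mem_Icc.2 hle) hle
    · have hsub : Set.Icc x x₀ ⊆ Set.Ioo a b := fun y hy =>
        ⟨lt_of_lt_of_le hx.1 hy.1, lt_of_le_of_lt hy.2 hx₀.2⟩
      have : MonotoneOn v (Set.Icc x x₀) := by
        apply monotoneOn_of_deriv_nonneg (convex_Icc x x₀)
        · exact fun t ht => (hvd t (hsub ht)).continuousAt.continuousWithinAt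
        · intro t ht
          rw [interior_Icc] at ht
          exact (hvd t (hsub ⟨ht.1.le, ht.2.le⟩)).differentiableAt.differentiableWithinAt
        · intro t ht
          rw [interior_Icc] at ht
          rw [(hvd t (hsub ⟨ht.1.le, ht.2.le⟩)).deriv, ← hu0]
          exact hua (hsub ⟨ht.1.le, ht.2.le⟩) hx₀ ht.2.le
      exact this (Set.left_mem_Icc.2 hle) (Set.right_mem_Icc.2 hle) hle
  rw [hv0] at key
  simp only [hv] at key
  linarith

/-- bound of the leading exponent -/
lemma s0_bd (hS0 : S_S0P) : ∃ Cg : ℝ, 0 < Cg ∧ ∀ x y : ℝ, |x| ≤ 2 * π / 3 → 0 ≤ y → y ≤ 1 →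
    (s0 (x + y * Complex.I)).re ≤ 2 * bet - x ^ 2 / (4 * π) + Cg * y := by
  obtain ⟨hd, hev, h00, -, -⟩ := hS0
  have hπ := Real.pi_pos
  set K : Set ℂ := (Set.Icc (-(2 * π / 3)) (2 * π / 3)) ×ℂ (Set.Icc (-1) 1) with hK
  have hKc : IsCompact K := (isCompact_Icc).reProdIm isCompact_Icc
  have hKre : ∀ w ∈ K, |w.re| < π := by
    intro w hw
    have h1 := hw.1
    rw [Set.mem_preimage, Set.mem_Icc] at h1
    rw [abs_lt]; constructor <;> linarith [h1.1, h1.2]
  have hghc : ContinuousOn gh K := fun w hw => (hd w (hKre w hw)).2.continuousAt.continuousWithinAt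
  obtain ⟨B, hB⟩ := hKc.exists_bound_of_continuousOn hghc
  have hB0 : 0 ≤ B := by
    have : (0 : ℂ) ∈ K := by
      constructor
      · rw [Set.mem_preimage, Set.mem_Icc]; simp; positivity
      · rw [Set.mem_preimage, Set.mem_Icc]; simp
    exact (norm_nonneg _).trans (hB 0 this)
  have hKconv : Convex ℝ K := by
    intro a ha b hb s t hs ht hst
    constructor
    · have e : (s • a + t • b).re = s • a.re + t • b.re := by simp
      rw [Set.mem_preimage, e]
      exact (convex_Icc _ _) ha.1 hb.1 hs ht hst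
    · have e : (s • a + t • b).im = s • a.im + t • b.im := by simp
      rw [Set.mem_preimage, e]
      exact (convex_Icc _ _) ha.2 hb.2 hs ht hst
  refine ⟨1 / π * B + 1, by positivity, fun x y hx hy0 hy1 => ?_⟩
  have hxK : (x : ℂ) ∈ K := by
    constructor
    · rw [Set.mem_preimage, Set.mem_Icc, Complex.ofReal_re]; exact abs_le.1 hx
    · rw [Set.mem_preimage, Set.mem_Icc]; simp
  have hxyK : (x : ℂ) + y * Complex.I ∈ K := by
    constructor
    · rw [Set.mem_preimage, Set.mem_Icc, xy_re]; exact abs_le.1 hx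
    · rw [Set.mem_preimage, Set.mem_Icc, xy_im]; constructor <;> linarith
  have h1 : ‖s0 (x + y * Complex.I) - s0 x‖ ≤ 1 / π * B * ‖((x : ℂ) + y * Complex.I) - x‖ := by
    apply hKconv.norm_image_sub_le_of_norm_hasDerivWithin_le
      (f' := fun w => -(1 / π) * gh w) (𝕜 := ℂ)
    · intro w hw
      exact (hd w (hKre w hw)).1.hasDerivWithinAt
    · intro w hw
      rw [norm_mul, norm_neg]
      have : ‖(1 / (π : ℂ))‖ = 1 / π := by
        rw [norm_div, norm_one, Complex.norm_real, Real.norm_eq_abs, abs_of_pos hπ]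
      rw [this]
      gcongr
      exact hB w hw
    · exact hxK
    · exact hxyK
  rw [add_sub_cancel_left, norm_mul, Complex.norm_I, mul_one, Complex.norm_real, Real.norm_eq_abs,
    abs_of_nonneg hy0] at h1
  have h2 := (abs_le.1 ((Complex.abs_re_le_norm _).trans h1)).2
  rw [Complex.sub_re] at h2
  -- the real axis
  have hreal : ∀ x : ℝ, 0 ≤ x → x ≤ 2 * π / 3 → (s0 x).re ≤ 2 * bet - x ^ 2 / (4 * π) := by
    have hgre : ∀ x : ℝ, 0 ≤ x → x ≤ 2 * π / 3 → x / 2 ≤ (gh x).re := by
      set v : ℝ → ℝ := fun x => (gh x).re - x / 2 with hv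
      have hvd : ∀ x : ℝ, |x| < π → HasDerivAt v ((1 / (2 * Complex.cos (x / 2))).re - 1 / 2) x := by
        intro x hx
        have h3 := (hd (x : ℂ) (by rwa [Complex.ofReal_re])).2.real_of_complex
        exact h3.sub ((hasDerivAt_id x).div_const 2)
      have hmono : MonotoneOn v (Set.Icc 0 (2 * π / 3)) := by
        have hin : ∀ x ∈ Set.Icc (0:ℝ) (2 * π / 3), |x| < π := fun x hx => by
          rw [abs_of_nonneg hx.1]; linarith [hx.2]
        apply monotoneOn_of_deriv_nonneg (convex_Icc _ _)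
        · exact fun t ht => (hvd t (hin t ht)).continuousAt.continuousWithinAt
        · intro t ht
          rw [interior_Icc] at ht
          exact (hvd t (hin t ⟨ht.1.le, ht.2.le⟩)).differentiableAt.differentiableWithinAt
        · intro t ht
          rw [interior_Icc] at ht
          rw [(hvd t (hin t ⟨ht.1.le, ht.2.le⟩)).deriv]
          have e : (1 / (2 * Complex.cos ((t : ℂ) / 2))).re = 1 / (2 * Real.cos (t / 2)) := by
            have : (1 / (2 * Complex.cos ((t : ℂ) / 2))) = ((1 / (2 * Real.cos (t / 2)) : ℝ) : ℂ) := by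
              push_cast; rfl
            rw [this, Complex.ofReal_re]
          rw [e]
          have hcos : 0 < Real.cos (t / 2) := by
            apply Real.cos_pos_of_mem_Ioo
            constructor <;> linarith [ht.1, ht.2]
          have hcos1 := Real.cos_le_one (t / 2)
          have : 1 / 2 ≤ 1 / (2 * Real.cos (t / 2)) := by
            apply one_div_le_one_div_of_le (by positivity)
            linarith
          linarith
      intro x hx0 hx1
      have h3 := hmono (Set.left_mem_Icc.2 (by positivity)) ⟨hx0, hx1⟩ hx0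
      have h4 : v 0 = 0 := by
        simp only [hv]
        unfold gh
        simp
      rw [h4] at h3
      simp only [hv] at h3
      linarith
    set f : ℝ → ℝ := fun x => (s0 x).re + x ^ 2 / (4 * π) with hf
    have hfd : ∀ x : ℝ, |x| < π → HasDerivAt f (-(1 / π) * (gh x).re + x / (2 * π)) x := by
      intro x hx
      have h3 := (hd (x : ℂ) (by rwa [Complex.ofReal_re])).1.real_of_complex
      have e : (-(1 / (π : ℂ)) * gh x).re = -(1 / π) * (gh x).re := by
        have : (-(1 / (π : ℂ))) = ((-(1 / π) : ℝ) : ℂ) := by push_cast; rfl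
        rw [this, Complex.re_ofReal_mul]
      rw [e] at h3
      have h4 : HasDerivAt (fun x : ℝ => x ^ 2 / (4 * π)) (x / (2 * π)) x := by
        have := ((hasDerivAt_id x).pow 2).div_const (4 * π)
        refine this.congr_deriv ?_
        simp only [Nat.cast_ofNat, id, Nat.add_one_sub_one, pow_one, mul_one]
        field_simp
        ring
      exact h3.add h4
    have hanti : AntitoneOn f (Set.Icc 0 (2 * π / 3)) := by
      have hin : ∀ x ∈ Set.Icc (0:ℝ) (2 * π / 3), |x| < π := fun x hx => by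
        rw [abs_of_nonneg hx.1]; linarith [hx.2]
      apply antitoneOn_of_deriv_nonpos (convex_Icc _ _)
      · exact fun t ht => (hfd t (hin t ht)).continuousAt.continuousWithinAt
      · intro t ht
        rw [interior_Icc] at ht
        exact (hfd t (hin t ⟨ht.1.le, ht.2.le⟩)).differentiableAt.differentiableWithinAt
      · intro t ht
        rw [interior_Icc] at ht
        rw [(hfd t (hin t ⟨ht.1.le, ht.2.le⟩)).deriv]
        have h3 := hgre t ht.1.le ht.2.le
        have h4 : 1 / π * (t / 2) ≤ 1 / π * (gh t).re := by gcongr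
        have h5 : 1 / π * (t / 2) = t / (2 * π) := by field_simp
        linarith
    intro x hx0 hx1
    have h3 := hanti (Set.left_mem_Icc.2 (by positivity)) ⟨hx0, hx1⟩ hx0
    have h4 : f 0 = 2 * bet := by
      simp only [hf]
      rw [Complex.ofReal_zero, h00, Complex.ofReal_re]
      simp
    rw [h4] at h3
    simp only [hf] at h3
    linarith
  have h3 : (s0 x).re ≤ 2 * bet - x ^ 2 / (4 * π) := by
    rcases le_total 0 x with h | h
    · exact hreal x h (by rwa [abs_of_nonneg h] at hx)
    · have h4 := hreal (-x) (by linarith) (by rwa [abs_of_nonpos h] at hx)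
      rw [Complex.ofReal_neg, hev, neg_sq] at h4
      exact h4
  have h5 : (1 / π * B + 1) * y = 1 / π * B * y + y := by ring
  rw [h5]
  linarith

end Pool.Agent.Y290.CH
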