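import Pool.Agent.Y290.CH.A1
import Pool.Agent.Y421.CG.MainZ

/-!
# CB3-H-MAINA: growth rate for many twist regions, absolute lower bound of the exponents (assembly)
-/

set_option autoImplicit false

namespace Pool.Agent.Y290.CH

open Finset Filter Topology Metric
open Pool.Agent.W711.HT Pool.Agent.Y472
open Pool.Agent.Y833.CB Pool.Agent.Y421.CG
open Pool.Agent.Y481 (cw)
open scoped Real

/-- from the normalised trace to the trace -/
lemma mw_tr {ls : List (ℤ × ℤ)} {G : ℂ → ℂ} {U : Set ℂ} {B : ℝ} (hB : ∀ w ∈ U, ‖G w‖ ≤ B)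
    (h : MW (XF ls) G U) : MW (fun N => Tf N ls) G U := by
  refine MW_tf (X := XF ls) (2 * ls.length) (L := -B) (δ := 1) one_pos h ?_ ?_
  · intro w hw
    have h1 := (abs_le.1 (Complex.abs_re_le_norm (G w))).1
    linarith [hB w hw]
  · filter_upwards [eventually_ge_atTop 1] with N hN w hw
    have hN0 : (N : ℂ) ≠ 0 := by
      have : N ≠ 0 := by omega
      exact_mod_cast this
    have hπ : (π : ℂ) ≠ 0 := by exact_mod_cast Real.pi_ne_zero
    have h1 : ((N : ℂ) / (2 * π)) ^ (2 * ls.length) ≠ 0 := by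
      apply pow_ne_zero
      apply div_ne_zero hN0
      exact mul_ne_zero two_ne_zero hπ
    unfold XF
    rw [← mul_assoc, mul_inv_cancel₀ h1, one_mul, sub_self, norm_zero]
    positivity

lemma mw_shift {X : ℕ → ℂ → ℂ} {G : ℂ → ℂ} {U V : Set ℂ} {a : ℂ} (h : MW X G U)
    (hV : ∀ w ∈ V, w + a ∈ U) : MW (fun N w => X N (w + a)) (fun w => G (w + a)) V := by
  intro ε hε
  filter_upwards [h ε hε] with N hN w hw
  exact hN (w + a) (hV w hw)

/-- the critical function along a horizontal line -/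
lemma line_le {G : ℂ → ℂ} {R c : ℝ} {m : ℤ} {χ : ℂ}
    (hG : DifferentiableOn ℂ G (Rc R R)) (hb : ∀ w ∈ Rc R R, (deriv (deriv G) w).re ≤ -c)
    (hχ : χ ∈ Rc R R) (hcr : Complex.I * m * χ / π + Complex.I + deriv G χ = 0) (x : ℝ)
    (hx : |x| < R) : Wt m x χ.im + (G (x + χ.im * Complex.I)).re ≤
      (Complex.I * m * χ ^ 2 / (2 * π) + Complex.I * χ + G χ).re - c / 2 * (x - χ.re) ^ 2 := by
  have hopen := Rc_open R
  have hπ' : (π : ℂ) ≠ 0 := by exact_mod_cast Real.pi_ne_zero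
  have hdd : DifferentiableOn ℂ (deriv G) (Rc R R) := hG.deriv hopen
  have hmem : ∀ x : ℝ, x ∈ Set.Ioo (-R) R → (x : ℂ) + χ.im * Complex.I ∈ Rc R R := by
    intro x hx
    constructor
    · rw [xy_re]; exact abs_lt.2 hx
    · rw [xy_im]; exact hχ.2
  set Φ : ℂ → ℂ := fun w => Complex.I * m * w ^ 2 / (2 * π) + Complex.I * w + G w with hΦ
  have hΦd : ∀ w ∈ Rc R R, HasDerivAt Φ (Complex.I * m * w / π + Complex.I + deriv G w) w := by
    intro w hw
    have h1 : HasDerivAt (fun w : ℂ => Complex.I * m * w ^ 2 / (2 * π) + Complex.I * w)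
        (Complex.I * m * w / π + Complex.I) w := by
      have h2 := ((((hasDerivAt_id w).pow 2).const_mul (Complex.I * m)).div_const (2 * π : ℂ)).add
        ((hasDerivAt_id w).const_mul Complex.I)
      refine h2.congr_deriv ?_
      simp only [Nat.cast_ofNat, id, Nat.add_one_sub_one, pow_one, mul_one]
      field_simp
    exact h1.add ((hG w hw).differentiableAt (hopen.mem_nhds hw)).hasDerivAt
  have hΦd2 : ∀ w ∈ Rc R R, HasDerivAt (fun w => Complex.I * m * w / π + Complex.I + deriv G w)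
      (Complex.I * m / π + deriv (deriv G) w) w := by
    intro w hw
    have h1 : HasDerivAt (fun w : ℂ => Complex.I * m * w / π + Complex.I)
        (Complex.I * m / π) w := by
      have := (((hasDerivAt_id w).const_mul (Complex.I * m)).div_const (π : ℂ)).add_const
        Complex.I
      simpa using this
    exact h1.add ((hdd w hw).differentiableAt (hopen.mem_nhds hw)).hasDerivAt
  have hm0 : (Complex.I * m / π).re = 0 := by
    have : (Complex.I * m / π : ℂ) = (((m : ℝ) / π : ℝ) : ℂ) * Complex.I := by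
      push_cast
      ring
    rw [this]
    simp
  have hχe : ((χ.re : ℝ) : ℂ) + χ.im * Complex.I = χ := Complex.re_add_im χ
  have key := conc_le (a := -R) (b := R) (x₀ := χ.re) (c := c)
    (φ := fun x : ℝ => (Φ ((x : ℂ) + χ.im * Complex.I)).re)
    (φ' := fun x : ℝ => (Complex.I * m * ((x : ℂ) + χ.im * Complex.I) / π + Complex.I +
      deriv G ((x : ℂ) + χ.im * Complex.I)).re)
    (φ'' := fun x : ℝ => (Complex.I * m / π + deriv (deriv G) ((x : ℂ) + χ.im * Complex.I)).re)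
    (fun x hx => ((hΦd _ (hmem x hx)).comp_add_const (x : ℂ) _).real_of_complex)
    (fun x hx => ((hΦd2 _ (hmem x hx)).comp_add_const (x : ℂ) _).real_of_complex)
    (fun x hx => by
      rw [Complex.add_re, hm0, zero_add]
      exact hb _ (hmem x hx))
    (abs_lt.1 hχ.1)
    (by
      simp only [hχe]
      rw [hcr, Complex.zero_re])
    x (abs_lt.1 hx)
  simp only [hχe] at key
  refine le_trans (le_of_eq ?_) key
  simp only [hΦ]
  rw [Complex.add_re _ (G _)]
  congr 1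
  have h1 : Complex.I * m * ((x : ℂ) + χ.im * Complex.I) ^ 2 / (2 * π) =
      (((m : ℝ) / (2 * π) : ℝ) : ℂ) * (Complex.I * ((x : ℂ) + χ.im * Complex.I) ^ 2) := by
    push_cast
    field_simp
  rw [Complex.add_re, h1, Complex.re_ofReal_mul]
  have h2 : (Complex.I * ((x : ℂ) + χ.im * Complex.I) ^ 2).re = -(2 * (x * χ.im)) := by
    rw [sq]; simp [Complex.mul_re, Complex.mul_im]; ring
  have h3 : (Complex.I * ((x : ℂ) + χ.im * Complex.I)).re = -χ.im := by
    simp
  rw [h2, h3]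
  unfold Wt
  field_simp
  ring

theorem maina (hbet : 1 / 2 ≤ bet)
    (hEX : ∀ (N : ℕ) (ls : List (ℤ × ℤ)) (m : ℤ), 2 ≤ N → ls ≠ [] →
      ‖Pool.Agent.H550R3.Jones.cjones N 2 (ftw m ++ bw ls) (vN N)‖ =
      ‖∑ p ∈ range N, deriv (fun χ => wE N m χ * Tf N ls χ) (2 * π * p / N) -
        2 * Complex.I * m * N * ∑ p ∈ range N, wE N m (2 * π * p / N) * Thi N ls p‖)
    (hFA : FAZc) (hTH : THZc) (hCI : S_CIZ) (hS0 : S_S0P)
    {ρ₀ c C : ℝ} {s dl : ℂ → ℂ → ℂ → ℂ} (hs : SD3 ρ₀ c C s dl) (hX : XFAc ρ₀ s) : S_MAINA := by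
  have hπ := Real.pi_gt_three
  have hπ2 := Real.pi_lt_d2
  obtain ⟨R, c₂, B₂, C', M₀, hR, hR1, hRρ, hc₂, hB₂, hC', hM₀, HX⟩ := hX
  obtain ⟨Cg, hCg, hCg2⟩ := s0_bd hS0
  have hC := hs.hC
  -- constants
  set δ : ℝ := R ^ 2 / (32 * π) with hδ
  have hδ0 : 0 < δ := by positivity
  have hδ1 : δ ≤ 1 / 96 := by
    rw [hδ, div_le_iff₀ (by positivity)]
    have : R ^ 2 ≤ 1 := by nlinarith
    linarith
  set q : ℝ := 3 / c₂ with hq
  have hq0 : 0 < q := by positivity
  -- `q / k` bounds `‖χ‖`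
  set Cm : ℝ := π * B₂ * (q + B₂ * q ^ 2) with hCm
  have hCm0 : 0 < Cm := by positivity
  set Cv : ℝ := (q + B₂ * q ^ 2) + q + 2 * (q ^ 2 + C * q ^ 4) with hCv
  have hCv0 : 0 < Cv := by positivity
  obtain ⟨K, hK⟩ := exists_nat_ge (max (max 1 (8 * q / R)) (max (10 * q + 1)
    (max ((Cm + Cv + 1) / δ) (max (Cg * q / δ) (10 * Cv)))))
  refine ⟨ρ₀, c, C, s, dl, hs, K, max M₀ (max (2 * C' / δ) 1), ?_⟩
  intro k hkK ls m hlen hls
  have hkK' : (K : ℝ) ≤ k := by exact_mod_cast hkK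
  have hKk := hK.trans hkK'
  have K1 : 1 ≤ (k : ℝ) := (le_max_left _ _).trans ((le_max_left _ _).trans hKk)
  have K2 : 8 * q / R ≤ (k : ℝ) := (le_max_right _ _).trans ((le_max_left _ _).trans hKk)
  have K3 : 10 * q + 1 ≤ (k : ℝ) := (le_max_left _ _).trans ((le_max_right _ _).trans hKk)
  have K4 : (Cm + Cv + 1) / δ ≤ (k : ℝ) :=
    (le_max_left _ _).trans ((le_max_right _ _).trans ((le_max_right _ _).trans hKk))
  have K5 : Cg * q / δ ≤ (k : ℝ) := (le_max_left _ _).trans ((le_max_right _ _).trans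
    ((le_max_right _ _).trans ((le_max_right _ _).trans hKk)))
  have K6 : 10 * Cv ≤ (k : ℝ) := (le_max_right _ _).trans ((le_max_right _ _).trans
    ((le_max_right _ _).trans ((le_max_right _ _).trans hKk)))
  clear hK hKk
  have hk0 : (0 : ℝ) < k := by linarith
  have hk : 1 ≤ k := by exact_mod_cast K1
  set M : ℝ := max M₀ (max (2 * C' / δ) 1) with hM
  have m1 : M₀ ≤ M := le_max_left _ _
  have m2 : 2 * C' / δ ≤ M := (le_max_left _ _).trans (le_max_right _ _)
  have m3 : 1 ≤ M := (le_max_right _ _).trans (le_max_right _ _)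
  have hM0 : 0 < M := by linarith
  have hCM : C' * k / M ≤ δ / 2 * k := by
    rw [div_le_iff₀ hδ0] at m2
    rw [div_le_iff₀ hM0]
    have h1 : C' ≤ δ / 2 * M := by linarith
    calc C' * k ≤ δ / 2 * M * k := mul_le_mul_of_nonneg_right h1 hk0.le
      _ = _ := by ring
  have hls0 : ls ≠ [] := by
    rintro rfl
    simp at hlen
    omega
  obtain ⟨G, z, hGd, hGb, hMW, hz, hclose⟩ := HX k hk ls hlen
    (fun p hp => ⟨m1.trans (hls p hp).1, m1.trans (hls p hp).2⟩)
  have hGc := hclose M hls hM0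
  -- the critical point
  have hqk : 3 / (c₂ * k) = q / k := by rw [hq]; field_simp
  have hqk8 : q / k ≤ R / 8 := by
    rw [div_le_iff₀ hk0]
    rw [div_le_iff₀ hR] at K2
    linarith
  have hqk10 : q / k ≤ 1 / 10 * (1 - 1 / k) := by
    have : 1 / 10 * (1 - 1 / (k : ℝ)) = (k - 1) / 10 / k := by field_simp
    rw [this]
    gcongr
    linarith
  have hqk10' : q / k < 1 / 10 := by
    have : 0 < 1 / (k : ℝ) := by positivity
    linarith
  obtain ⟨χ, hχn, hχc, hχ0, hχi, hχm⟩ := crit_pt (R := R) (c := c₂ * k) (B := B₂ * k) (G := G) m hR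
    (by positivity) (by rw [hqk]; linarith) hGd hGb
  rw [hqk] at hχn
  have hχR : χ ∈ Rc R R := Rc_ball (by linarith : q / k < R) hχn
  obtain ⟨hz1, hz2, hz3⟩ := hz χ hχR
  have hn0 : 0 ≤ ‖χ‖ := norm_nonneg _
  have hnq : ‖χ‖ * k ≤ q := by rwa [le_div_iff₀ hk0] at hχn
  -- bounds
  have hsq : B₂ * k * ‖χ‖ ^ 2 * k ≤ B₂ * q ^ 2 := by
    have : (‖χ‖ * k) ^ 2 ≤ q ^ 2 := by gcongr
    calc B₂ * k * ‖χ‖ ^ 2 * k = B₂ * (‖χ‖ * k) ^ 2 := by ring
      _ ≤ _ := by gcongr
  have hsum : (‖χ‖ + B₂ * k * ‖χ‖ ^ 2) * k ≤ q + B₂ * q ^ 2 := by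
    rw [add_mul]; linarith
  have hmh : |(m : ℝ)| * χ.im ≤ Cm := by
    have h1 : |(m : ℝ)| * χ.im ≤ B₂ * k * (|(m : ℝ)| * ‖χ‖ ^ 2) := by
      calc |(m : ℝ)| * χ.im ≤ |(m : ℝ)| * (B₂ * k * ‖χ‖ ^ 2) := by gcongr
        _ = _ := by ring
    have h2 : B₂ * k * (|(m : ℝ)| * ‖χ‖ ^ 2) ≤ B₂ * k * (π * (‖χ‖ + B₂ * k * ‖χ‖ ^ 2)) := by
      gcongr
    have h3 : B₂ * k * (π * (‖χ‖ + B₂ * k * ‖χ‖ ^ 2)) =
        π * B₂ * ((‖χ‖ + B₂ * k * ‖χ‖ ^ 2) * k) := by ring
    rw [h3] at h2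
    refine h1.trans (h2.trans ?_)
    rw [hCm]
    gcongr
  set V : ℝ := (Complex.I * m * χ ^ 2 / (2 * π) + Complex.I * χ + G χ).re with hV
  have hVlo : 4 * k * bet - δ / 2 * k - Cv / k ≤ V := by
    have e1 : ‖Complex.I * m * χ ^ 2 / (2 * π)‖ ≤ (q + B₂ * q ^ 2) / k := by
      rw [norm_div, norm_mul, norm_mul, Complex.norm_I, one_mul, Complex.norm_intCast, norm_pow,
        norm_mul, Complex.norm_real, Real.norm_eq_abs, abs_of_pos (by linarith : (0:ℝ) < π)]
      rw [div_le_div_iff₀ (by simp; positivity) hk0]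
      have h1 : |(m : ℝ)| * ‖χ‖ ^ 2 * k ≤ π * (q + B₂ * q ^ 2) := by
        calc |(m : ℝ)| * ‖χ‖ ^ 2 * k ≤ π * (‖χ‖ + B₂ * k * ‖χ‖ ^ 2) * k := by gcongr
          _ = π * ((‖χ‖ + B₂ * k * ‖χ‖ ^ 2) * k) := by ring
          _ ≤ _ := by gcongr
      have h2 : (0 : ℝ) ≤ π * (q + B₂ * q ^ 2) := by positivity
      simp only [Complex.norm_ofNat]
      linarith
    have e2 : ‖Complex.I * χ‖ ≤ q / k := by
      rw [norm_mul, Complex.norm_I, one_mul]; exact hχn
    have e3 : ‖G χ - 4 * k * bet‖ ≤ δ / 2 * k + 2 * (q ^ 2 + C * q ^ 4) / k := by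
      have h0 : (0 : ℂ) ∈ Rc ρ₀ ρ₀ := Rc_ball hs.hρ.1 (by simp)
      have hχρ : χ ∈ Rc ρ₀ ρ₀ := ⟨hχR.1.trans_le hRρ, hχR.2.trans_le hRρ⟩
      have h1 := hs.low 0 h0 0 h0 χ hχρ
      simp only [norm_zero, zero_add, ne_eq, OfNat.ofNat_ne_zero, not_false_eq_true, zero_pow]
        at h1
      have h2 := (hGc χ hχR).trans hCM
      have h3 : G χ - 4 * k * bet = (G χ - 2 * k * s 0 0 χ) +
          2 * k * (s 0 0 χ - (2 * bet - χ ^ 2 / (4 * π))) - 2 * k * (χ ^ 2 / (4 * π)) := by ring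
      rw [h3]
      have h4 : ‖(2 : ℂ) * k * (s 0 0 χ - (2 * bet - χ ^ 2 / (4 * π)))‖ ≤ 2 * (C * q ^ 4) / k := by
        rw [norm_mul, norm_mul, Complex.norm_natCast, Complex.norm_ofNat]
        have h5 : ‖χ‖ ^ 4 * k * k ≤ q ^ 4 := by
          have h6 : (‖χ‖ * k) ^ 4 ≤ q ^ 4 := by gcongr
          have h7 : ‖χ‖ ^ 4 * k * k * 1 ≤ ‖χ‖ ^ 4 * k * k * (k * k) := by
            gcongr
            exact K1.trans (le_mul_of_one_le_left hk0.le K1)
          calc ‖χ‖ ^ 4 * k * k ≤ ‖χ‖ ^ 4 * k * k * (k * k) := by linarith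
            _ = (‖χ‖ * k) ^ 4 := by ring
            _ ≤ _ := h6
        rw [le_div_iff₀ hk0]
        calc 2 * (k : ℝ) * ‖s 0 0 χ - (2 * bet - χ ^ 2 / (4 * π))‖ * k ≤
            2 * (k : ℝ) * (C * ‖χ‖ ^ 4) * k := by gcongr
          _ = 2 * (C * (‖χ‖ ^ 4 * k * k)) := by ring
          _ ≤ _ := by gcongr
      have h5 : ‖(2 : ℂ) * k * (χ ^ 2 / (4 * π))‖ ≤ 2 * q ^ 2 / k := by
        rw [norm_mul, norm_mul, Complex.norm_natCast, Complex.norm_ofNat, norm_div, norm_pow,
          norm_mul, Complex.norm_real, Real.norm_eq_abs, abs_of_pos (by linarith : (0:ℝ) < π),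
          Complex.norm_ofNat]
        rw [le_div_iff₀ hk0]
        have h6 : ‖χ‖ ^ 2 / (4 * π) ≤ ‖χ‖ ^ 2 := by
          apply div_le_self (by positivity)
          linarith
        have h7 : (‖χ‖ * k) ^ 2 ≤ q ^ 2 := by gcongr
        calc 2 * (k : ℝ) * (‖χ‖ ^ 2 / (4 * π)) * k ≤ 2 * (k : ℝ) * (‖χ‖ ^ 2) * k := by gcongr
          _ = 2 * (‖χ‖ * k) ^ 2 := by ring
          _ ≤ _ := by gcongr
      calc _ ≤ ‖G χ - 2 * k * s 0 0 χ‖ + ‖(2 : ℂ) * k * (s 0 0 χ - (2 * bet - χ ^ 2 / (4 * π)))‖ +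
            ‖(2 : ℂ) * k * (χ ^ 2 / (4 * π))‖ :=
          (norm_sub_le _ _).trans (by gcongr; exact norm_add_le _ _)
        _ ≤ δ / 2 * k + 2 * (C * q ^ 4) / k + 2 * q ^ 2 / k := by gcongr
        _ = _ := by ring
    have e4 : V = (Complex.I * m * χ ^ 2 / (2 * π)).re + (Complex.I * χ).re +
        (G χ - 4 * k * bet).re + 4 * k * bet := by
      rw [hV, Complex.add_re, Complex.add_re, Complex.sub_re]
      have : (4 * (k : ℂ) * (bet : ℂ)).re = 4 * k * bet := by
        have : (4 * (k : ℂ) * (bet : ℂ)) = ((4 * k * bet : ℝ) : ℂ) := by push_cast; rfl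
        rw [this, Complex.ofReal_re]
      rw [this]
      ring
    have f1 := (abs_le.1 ((Complex.abs_re_le_norm _).trans e1)).1
    have f2 := (abs_le.1 ((Complex.abs_re_le_norm _).trans e2)).1
    have f3 := (abs_le.1 ((Complex.abs_re_le_norm _).trans e3)).1
    have e5 : Cv / k = (q + B₂ * q ^ 2) / k + q / k + 2 * (q ^ 2 + C * q ^ 4) / k := by
      rw [hCv]; ring
    rw [e4, e5]
    linarith
  have hCvk : Cv / k ≤ 1 / 10 := by
    rw [div_le_iff₀ hk0]; linarith
  have hCvk' : Cv / k ≤ Cv := div_le_self hCv0.le K1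
  have hVlo2 : 157 / 100 * k + 1 / 200 ≤ V := by
    have h1 : 4 * k * (1 / 2) ≤ 4 * k * bet := by gcongr
    have h2 : δ / 2 * k ≤ 1 / 192 * k := mul_le_mul_of_nonneg_right (by linarith) hk0.le
    linarith
  have hVpos : 0 < V := by
    have : (0 : ℝ) < 157 / 100 * k := by positivity
    linarith
  -- the far part
  have hh1 : χ.im ≤ q / k := (Complex.im_le_norm χ).trans hχn
  have hh2 : χ.im ≤ 1 / 10 := hh1.trans hqk10'.le
  have hCgh : Cg * χ.im ≤ δ := by
    have h1 : Cg * χ.im ≤ Cg * (q / k) := by gcongr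
    refine h1.trans ?_
    rw [← mul_div_assoc, div_le_iff₀ hk0]
    rw [div_le_iff₀ hδ0] at K5
    linarith
  have hfar : ∀ x y : ℝ, R / 2 ≤ |x| → |x| ≤ 2 * π / 3 → 0 ≤ y → y ≤ χ.im →
      Wt m x y + 2 * k * max (s0 (x + y * Complex.I)).re bet ≤ V - 1 := by
    intro x y hx1 hx2 hy0 hy1
    have h1 := hCg2 x y hx2 hy0 (by linarith)
    have h2 : 2 * δ ≤ x ^ 2 / (4 * π) := by
      have : (R / 2) ^ 2 ≤ x ^ 2 := by
        rw [← sq_abs x]; gcongr
      have h3 : 2 * δ = (R / 2) ^ 2 / (4 * π) := by rw [hδ]; ring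
      rw [h3]
      gcongr
    have h3 : Cg * y ≤ Cg * χ.im := by gcongr
    have h4 : (s0 (x + y * Complex.I)).re ≤ 2 * bet - δ := by linarith
    have h5 : max (s0 (x + y * Complex.I)).re bet ≤ 2 * bet - δ := max_le h4 (by linarith)
    have h6 : Wt m x y ≤ Cm := by
      unfold Wt
      have h7 : -((m : ℝ) * x * y) / π ≤ |(m : ℝ)| * y * (|x| / π) := by
        have : -((m : ℝ) * x * y) / π ≤ |(m : ℝ) * x * y| / π := by
          gcongr; exact neg_le_abs _
        refine this.trans (le_of_eq ?_)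
        rw [abs_mul, abs_mul, abs_of_nonneg hy0]
        ring
      have h8 : |x| / π ≤ 1 := by
        rw [div_le_one (by linarith)]; linarith
      have h9 : |(m : ℝ)| * y ≤ Cm := by
        refine le_trans ?_ hmh
        gcongr
      have h10 : |(m : ℝ)| * y * (|x| / π) ≤ |(m : ℝ)| * y * 1 := by
        gcongr
      linarith
    have h7 : 2 * k * max (s0 (x + y * Complex.I)).re bet ≤ 2 * k * (2 * bet - δ) := by gcongr
    have h8 : Cm + Cv + 1 ≤ k * δ := by rwa [div_le_iff₀ hδ0] at K4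
    have h9 : 0 < k * δ := by positivity
    have h10 : 2 * k * (2 * bet - δ) = 4 * k * bet - 2 * (k * δ) := by ring
    have h11 : δ / 2 * k = k * δ / 2 := by ring
    rw [h10] at h7
    rw [h11] at hVlo
    linarith
  -- the contour
  set r : ℝ := min (χ.im / 4) (R / 8) with hr
  have hr0 : 0 < r := by positivity
  have r1 : r ≤ χ.im / 4 := min_le_left _ _
  have r2 : r ≤ R / 8 := min_le_right _ _
  set κ : ℝ := min 1 (c₂ * k * r ^ 2 / 8) with hκ
  have hκ0 : 0 < κ := by positivity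
  have κ1 : κ ≤ 1 := min_le_left _ _
  have κ2 : κ ≤ c₂ * k * r ^ 2 / 8 := min_le_right _ _
  set KK : Set ℂ := (Set.Icc (-(R / 2)) (R / 2)) ×ℂ (Set.Icc (χ.im / 2) (3 * χ.im / 2)) with hKK
  have hKKc : IsCompact KK := (isCompact_Icc).reProdIm isCompact_Icc
  have hKKR : KK ⊆ Rc R R := by
    intro w hw
    have h1 := hw.1
    have h2 := hw.2
    rw [Set.mem_preimage, Set.mem_Icc] at h1 h2
    constructor
    · rw [abs_lt]; constructor <;> linarith [h1.1, h1.2]
    · rw [abs_lt]; constructor <;> linarith [h2.1, h2.2]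
  have hKKi : ∀ w ∈ KK, 0 < w.im := by
    intro w hw
    have h2 := hw.2
    rw [Set.mem_preimage, Set.mem_Icc] at h2
    linarith [h2.1]
  obtain ⟨B, hB⟩ := hKKc.exists_bound_of_continuousOn (hGd.continuousOn.mono hKKR)
  have hMWT : MW (fun N => Tf N ls) G KK := mw_tr hB (hMW KK hKKc hKKR hKKi)
  have hχre : |χ.re| ≤ R / 8 := (Complex.abs_re_le_norm χ).trans (hχn.trans hqk8)
  have hboxR : ∀ w ∈ Rc r r, w + χ ∈ KK := by
    intro w hw
    have h1 := abs_lt.1 hw.1
    have h2 := abs_lt.1 hw.2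
    have h3 := abs_le.1 hχre
    constructor
    · rw [Set.mem_preimage, Set.mem_Icc, Complex.add_re]
      constructor <;> linarith
    · rw [Set.mem_preimage, Set.mem_Icc, Complex.add_im]
      constructor <;> linarith
  have hbigN : ∀ᶠ N : ℕ in atTop, 9 / 5 ≤ N * (κ / 4) := by
    have h1 : ∀ᶠ N : ℕ in atTop, (9 / 5) / (κ / 4) ≤ (N : ℝ) :=
      tendsto_natCast_atTop_atTop.eventually_ge_atTop _
    filter_upwards [h1] with N h1
    rwa [div_le_iff₀ (by positivity)] at h1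
  have hNim : ∀ᶠ N : ℕ in atTop, 1 / (N : ℝ) ≤ χ.im := by
    have := tendsto_one_div_atTop_nhds_zero_nat (𝕜 := ℝ)
    exact (this.eventually_lt_const (u := χ.im) hχ0).mono fun N hN => hN.le
  have hsh1 : deriv (fun w => G (w + χ)) = fun w => deriv G (w + χ) := by
    funext w
    exact deriv_comp_add_const _ _ _
  have hsh2 : deriv (deriv (fun w => G (w + χ))) = fun w => deriv (deriv G) (w + χ) := by
    rw [hsh1]
    funext w
    exact deriv_comp_add_const _ _ _
  have hlim := hCI m χ 0 r (c₂ * k) (κ / 2) V (fun N => Tf N ls) (fun w => G (w + χ)) hr0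
    (by linarith) (by linarith) (by linarith) (by positivity) (by positivity)
    (fun N => Tf_diff N ls)
    (fun N w => Tf_congr N ls (Complex.cos_neg w))
    (fun w hw => (((hGd _ (hKKR (hboxR w hw))).differentiableAt
      ((Rc_open R).mem_nhds (hKKR (hboxR w hw)))).hasDerivAt.comp_add_const w
        χ).differentiableAt.differentiableWithinAt)
    (fun w hw => by
      rw [hsh2]
      exact (hGb _ (hKKR (hboxR w hw))).2.1)
    (mw_shift hMWT hboxR)
    (Rc_ball (by linarith : (0:ℝ) < r / 4) (by simp))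
    (by
      rw [hsh1]
      simp only [zero_add, add_zero]
      exact hχc)
    (by
      rw [hV]
      simp only [zero_add, add_zero])
    (by
      filter_upwards [hFA ls m hls0 (κ / 4) (by positivity), hNim, hbigN,
        hMWT (κ / 4) (by positivity)] with N h1 hNim hbig hMW' x hx1 hx2
      rw [add_zero]
      rcases le_total |x| (R / 2) with hx | hx
      · have hxK : (x : ℂ) + χ.im * Complex.I ∈ KK := by
          constructor
          · rw [Set.mem_preimage, Set.mem_Icc, xy_re]; exact abs_le.1 hx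
          · rw [Set.mem_preimage, Set.mem_Icc, xy_im]; constructor <;> linarith
        obtain ⟨hne, hlog⟩ := hMW' _ hxK
        have h2 : ‖Tf N ls (x + χ.im * Complex.I)‖ ≤
            Real.exp (N * ((G (x + χ.im * Complex.I)).re + κ / 4)) := by
          rw [← Real.log_le_iff_le_exp (norm_pos_iff.2 hne)]
          have := (abs_le.1 hlog).2
          linarith
        have h3 := line_le (m := m) hGd (fun w hw => (hGb w hw).2.1) hχR hχc x (by linarith)
        rw [← hV] at h3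
        have h4 : r / 2 ≤ |x - χ.re| := hx2
        have h5 : (r / 2) ^ 2 ≤ (x - χ.re) ^ 2 := by
          rw [← sq_abs (x - χ.re)]; gcongr
        have h6 : c₂ * k / 2 * (r / 2) ^ 2 ≤ c₂ * k / 2 * (x - χ.re) ^ 2 := by gcongr
        have h7 : c₂ * k / 2 * (r / 2) ^ 2 = c₂ * k * r ^ 2 / 8 := by ring
        exact prod_bd (m := m) (T := V) (κ := κ) hχ0.le (by linarith) h2 (by linarith) hbig
      · have h2 := (h1.2 (x + χ.im * Complex.I) (by rwa [xy_re]) (by
          rw [xy_im, abs_of_pos hχ0]; linarith) (gap_of_im (by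
          rw [xy_im, abs_of_pos hχ0]; exact hNim))).1
        rw [hlen] at h2
        have h3 := hfar x χ.im hx hx1 hχ0.le le_rfl
        exact prod_bd (m := m) (T := V) (κ := κ) hχ0.le (by linarith) h2 (by linarith) hbig)
    (by
      filter_upwards [hFA ls m hls0 (κ / 4) (by positivity), hbigN, eventually_ge_atTop 1000] with
        N h1 hbig hN y hy0 hy1 σ' hσ'
      rw [add_zero] at hy1
      obtain ⟨hRN1, hRN2⟩ := RN_bd hN
      have hRNp : 0 < RN N := by linarith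
      have hx : |σ' * RN N| = RN N := by rw [abs_mul, hσ', one_mul, abs_of_pos hRNp]
      have hcast : ((σ' : ℂ) * (RN N : ℂ)) = ((σ' * RN N : ℝ) : ℂ) := by push_cast; rfl
      have hgap := gap_side (N := N) (by omega) y σ' hσ'
      rw [hcast] at hgap ⊢
      have h2 := (h1.2 ((σ' * RN N : ℝ) + y * Complex.I) (by rw [xy_re, hx]; exact hRN2) (by
        rw [xy_im, abs_of_nonneg hy0]; linarith) hgap).1
      rw [hlen] at h2
      have h3 := hfar (σ' * RN N) y (by rw [hx]; linarith) (by rw [hx]; exact hRN2) hy0 hy1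
      exact prod_bd (m := m) (T := V) (κ := κ) hy0 (by linarith) h2 (by linarith) hbig)
  refine ⟨z χ, χ, lt_of_le_of_lt hχn hqk10', ⟨⟨hχR.1.trans_le hRρ, hχR.2.trans_le hRρ⟩, hχ0,
    hχn.trans hqk10'.le, hz1, ?_⟩, ?_⟩
  · rw [← hz2]
    exact hχc
  have hval : (RVal3 s (2 * k) (cw ls) m (z χ) χ).re = V := by
    rw [hV]
    congr 1
    unfold RVal3
    rw [← hz3]
    ring
  rw [hval]
  have hfin := comb (E := fun N => EN N ls m) (V := V) (δ := 1 / 800) hVpos (by norm_num) hlim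
    (rest_bd hlen hls0 m hFA hTH hVlo2)
  refine hfin.congr' ?_
  filter_upwards [eventually_ge_atTop 2] with N hN
  rw [hEX N ls m hN hls0]
  rfl

end Pool.Agent.Y290.CH
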